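import Pool.Agent.H7.LP.Targets

/-!
# Row RIG of lpg_modules: points with equal structures are in one orbit
-/

set_option autoImplicit false

open Set Filter Topology
open Pool.Agent.H7.LP

namespace Pool.Agent.H36.LP

private theorem small_aux {G : Type} [Group G] [TopologicalSpace G] (L : LPD G) (k : ℕ → ℕ)
    (g : ℕ → G) (h : ∀ m, ∃ s, m ≤ k s ∧ g s ∈ L.H (k s)) :
    ∀ U ∈ 𝓝 (1 : G), ∃ s, ∀ r ∈ L.R (k s), (g s)⁻¹ * r * g s ∈ U := by
  intro U hU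
  obtain ⟨m, hm⟩ := L.small U hU
  obtain ⟨s, hs, hg⟩ := h m
  refine ⟨s, fun r hr => hm _ ?_⟩
  have h1 := (L.piece (k s)).nor (g s)⁻¹ ((L.H (k s)).inv_mem hg) r hr
  rw [inv_inv] at h1
  exact (antitone_nat_of_succ_le L.antR) hs h1

theorem pf_RIG (h1 : T_EQV) (h2 : T_LAB) (h3 : T_LSM) (h4 : T_PRS) (h5 : T_CVN) (h6 : T_RSQ) :
    T_RIG := by
  intro G X _ _ _ _ _ L M _ Y S x x' e e' w he he' hw hw'
  obtain ⟨i, hi1, hi2, hi3, hi4⟩ := h6 G X L M Y S x x' e e' w he he' hw hw'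
  obtain ⟨-, hLab, -⟩ := h2 G
  have hsm := small_aux L (fun s => S.k (i s).1) (fun s => e (i s)) hi3
  have hsm' := small_aux L (fun s => S.k (i s).1) (fun s => e' (i s)) hi4
  have hA : ∀ s, S.Adm (i (s + 1)).1 (i s).1 (e (i (s + 1)) * (e (i s))⁻¹) := by
    intro s
    obtain ⟨n, hn⟩ := hi2 s
    exact ((hw _ _ _).1 hn).2.2.1
  have hQ : ∀ s, (e (i (s + 1)) * (e (i s))⁻¹)⁻¹ * (e' (i (s + 1)) * (e' (i s))⁻¹) ∈
      S.K (i s).1 := by
    intro s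
    obtain ⟨n, hn⟩ := hi2 s
    have a1 := ((hw _ _ _).1 hn).2.2.2
    have a2 := ((hw' _ _ _).1 hn).2.2.2
    have a3 := (S.K (i s).1).mul_mem ((S.K (i s).1).inv_mem a1) a2
    have a4 : ((S.gm n)⁻¹ * (e (i (s + 1)) * (e (i s))⁻¹))⁻¹ *
        ((S.gm n)⁻¹ * (e' (i (s + 1)) * (e' (i s))⁻¹)) =
        (e (i (s + 1)) * (e (i s))⁻¹)⁻¹ * (e' (i (s + 1)) * (e' (i s))⁻¹) := by
      group
    rw [a4] at a3
    exact a3
  obtain ⟨a, ha⟩ := h5 G X L M Y S (fun s => (i s).1) (fun s => e (i s)) (fun s => e' (i s))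
    hA hQ hsm hsm'
  have key : tr a (Y.C x) = tr 1 (Y.C x') := by
    refine h3 G (fun s => L.R (S.k (i s).1)) (fun s => e' (i s)) a 1 (Y.C x) (Y.C x')
      (Y.cl x) (Y.cl x') hsm' ?_
    intro s
    have hu := ha s
    have huS := S.le _ hu
    rw [mem_Stb] at huS
    obtain ⟨gx, hgx⟩ := (h4 G X L M Y S x e w he hw (i s).1).1 (hi1 s)
    obtain ⟨gx', hgx'⟩ := (h4 G X L M Y S x' e' w he' hw' (i s).1).1 (hi1 s)
    have hN : S.Node x (i s).1 (e (i s)) := he.node _ gx hgx (i s).2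
    have hN' : S.Node x' (i s).1 (e' (i s)) := he'.node _ gx' hgx' (i s).2
    have e1 : e' (i s) * a = (e' (i s) * a * (e (i s))⁻¹) * e (i s) := by group
    unfold Sys.Node at hN hN'
    rw [mul_one, hN', e1, tr_mul, hLab _ _ _ (L.piece _) _ huS.1, hN]
    exact huS.2
  rw [tr_one] at key
  obtain ⟨m, -, hm⟩ := h1 G X M Y a x x' key
  exact ⟨m, hm⟩

end Pool.Agent.H36.LP
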