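import Pool.Agent.H7.LP.Targets

/-!
# Row SEL of lpg_modules: the set `W` is Borel and has a Borel selector
-/

set_option autoImplicit false

open Set Filter Topology
open Pool.Agent.H7.LP

namespace Pool.Agent.H36.LP

private theorem closed_aux {G : Type} [Group G] [TopologicalSpace G] [IsTopologicalGroup G]
    (R' R : Subgroup G) (hR : IsClosed (R : Set G)) :
    IsClosed {b : G | ∀ r ∈ R', b⁻¹ * r * b ∈ R} := by
  have h1 : {b : G | ∀ r ∈ R', b⁻¹ * r * b ∈ R} =
      ⋂ (r : G) (_ : r ∈ R'), (fun b : G => b⁻¹ * r * b) ⁻¹' (R : Set G) := by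
    ext b
    simp only [mem_ofPred_eq, mem_iInter, mem_preimage, SetLike.mem_coe]
  rw [h1]
  refine isClosed_iInter fun r => isClosed_iInter fun _ => hR.preimage ?_
  exact (continuous_inv.mul continuous_const).mul continuous_id

/-- a union over the countably many values of a measurable function -/
private theorem meas_cases {Ω : Type} [MeasurableSpace Ω] (f : Ω → ℕ) (hf : Measurable f)
    (P : ℕ → Ω → Prop) (hP : ∀ q, MeasurableSet {ω | P q ω}) : MeasurableSet {ω | P (f ω) ω} := by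
  have h1 : {ω | P (f ω) ω} = ⋃ q : ℕ, (f ⁻¹' {q} ∩ {ω | P q ω}) := by
    ext ω
    simp only [mem_ofPred_eq, mem_iUnion, mem_inter_iff, mem_preimage, mem_singleton_iff]
    constructor
    · intro h
      exact ⟨f ω, rfl, h⟩
    · rintro ⟨q, hq, h⟩
      rw [hq]
      exact h
  rw [h1]
  exact MeasurableSet.iUnion fun q => (hf (MeasurableSet.singleton q)).inter (hP q)

theorem pf_SEL (h1 : T_REC) (h2 : T_STR) (h3 : T_SXA) (h4 : T_EST) (h5 : T_SXB) (h6 : T_DIX)
    (h7 : T_UNQ) (h8 : T_BND) (h9 : T_BCO) (h10 : T_BST) (h11 : T_SHF) : T_SEL := by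
  intro G X _ _ _ _ _ _ _ _ _ L M _ Y S hM
  obtain ⟨F, hFm, hF⟩ := h1 G X L M Y S
  obtain ⟨E, hEm, hE⟩ := h4 G X L M Y S F hFm
  obtain ⟨σ, hσm, hσ1, hσ2⟩ := h6 G M hM
  obtain ⟨B, hB⟩ : ∃ B : Set (St × X × G), B = {p | σ p.2.2 = p.2.2 ∧
      (∀ s, S.Node p.2.1 (F p.1 s).1.1 ((F p.1 s).2 * p.2.2)) ∧
      (∀ s, ∀ r ∈ L.R (S.k (F p.1 (s + 1)).1.1),
        ((F p.1 (s + 1)).2)⁻¹ * r * (F p.1 (s + 1)).2 ∈ L.R s) ∧
      S.IsCode p.2.1 (fun i => E p.1 i * p.2.2) ∧
      S.IsStr p.2.1 (fun i => E p.1 i * p.2.2) p.1} := ⟨_, rfl⟩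
  have hF1 : ∀ s, Measurable fun p : St × X × G => (F p.1 s).1.1 := fun s =>
    measurable_fst.comp (measurable_fst.comp ((hFm s).comp measurable_fst))
  have hF2 : ∀ s, Measurable fun p : St × X × G => (F p.1 s).2 := fun s =>
    measurable_snd.comp ((hFm s).comp measurable_fst)
  have hx : Measurable fun p : St × X × G => p.2.1 := measurable_fst.comp measurable_snd
  have ha : Measurable fun p : St × X × G => p.2.2 := measurable_snd.comp measurable_snd
  have hE' : Measurable fun p : St × X × G => (fun i => E p.1 i * p.2.2) :=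
    measurable_pi_lambda _ fun i => ((hEm i).comp measurable_fst).mul ha
  have hBm : MeasurableSet B := by
    have m1 : MeasurableSet {p : St × X × G | σ p.2.2 = p.2.2} :=
      measurableSet_eq_fun (hσm.comp ha) ha
    have m2 : MeasurableSet {p : St × X × G |
        ∀ s, S.Node p.2.1 (F p.1 s).1.1 ((F p.1 s).2 * p.2.2)} := by
      rw [ofPred_forall]
      refine MeasurableSet.iInter fun s => ?_
      refine meas_cases (fun p : St × X × G => (F p.1 s).1.1) (hF1 s)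
        (fun q p => S.Node p.2.1 q ((F p.1 s).2 * p.2.2)) fun q => ?_
      have h12 := h8 G X L M Y S q
      exact (hx.prodMk ((hF2 s).mul ha)) h12
    have m3 : MeasurableSet {p : St × X × G | ∀ s, ∀ r ∈ L.R (S.k (F p.1 (s + 1)).1.1),
        ((F p.1 (s + 1)).2)⁻¹ * r * (F p.1 (s + 1)).2 ∈ L.R s} := by
      rw [ofPred_forall]
      refine MeasurableSet.iInter fun s => ?_
      refine meas_cases (fun p : St × X × G => (F p.1 (s + 1)).1.1) (hF1 (s + 1))
        (fun q p => ∀ r ∈ L.R (S.k q),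
          ((F p.1 (s + 1)).2)⁻¹ * r * (F p.1 (s + 1)).2 ∈ L.R s) fun q => ?_
      have h12 := (closed_aux (L.R (S.k q)) (L.R s) (L.piece s).cl).measurableSet
      exact hF2 (s + 1) h12
    have m4 : MeasurableSet {p : St × X × G | S.IsCode p.2.1 (fun i => E p.1 i * p.2.2)} :=
      (hx.prodMk hE') (h9 G X L M Y S)
    have m5 : MeasurableSet {p : St × X × G |
        S.IsStr p.2.1 (fun i => E p.1 i * p.2.2) p.1} :=
      (hx.prodMk (hE'.prodMk measurable_fst)) (h10 G X L M Y S)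
    rw [hB]
    exact m1.inter (m2.inter (m3.inter (m4.inter m5)))
  have hinj : InjOn (Prod.fst : St × X × G → St) B := by
    rintro ⟨w, x, a⟩ hp ⟨w', x', a'⟩ hp' hww
    simp only at hww
    subst hww
    rw [hB] at hp hp'
    obtain ⟨p1, p2, p3, -, -⟩ := hp
    obtain ⟨p1', p2', -, -, -⟩ := hp'
    obtain ⟨e1, e2⟩ := h7 G X L M Y S σ hσ1 hσ2 (fun s => (F w s).1.1) (fun s => (F w s).2)
      x x' a a' p1 p1' p2 p2' p3
    rw [e1, e2]
  have hWB : ∀ w ∈ S.W, ∃ x a, (w, x, a) ∈ B := by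
    rintro w ⟨x0, e0, hc, hs⟩
    obtain ⟨a0, ha0⟩ := h3 G X L M Y S F hF x0 e0 w hc hs
    obtain ⟨m, hm, hσm'⟩ := hσ1 a0
    obtain ⟨-, -, hst⟩ := h2 G X L M Y S F hF x0 e0 w hc hs
    obtain ⟨hc1, hs1⟩ := h11 G X L M Y S x0 (⟨m, hm⟩⁻¹ : M) e0 w hc hs
    have hco : (((⟨m, hm⟩⁻¹ : M) : G))⁻¹ = m := by simp
    rw [hco] at hc1 hs1
    have hK : ∀ s, (F w s).2 * σ a0 * (e0 (F w s).1 * m)⁻¹ ∈ S.K (F w s).1.1 := by
      intro s
      have e1 : (F w s).2 * σ a0 * (e0 (F w s).1 * m)⁻¹ = (F w s).2 * a0 * (e0 (F w s).1)⁻¹ := by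
        rw [hσm']
        group
      rw [e1]
      exact ha0 s
    obtain ⟨n1, n2, n3⟩ := h5 G X L M Y S F hF E hE _ _ w (σ a0) hc1 hs1 hK
    refine ⟨(⟨m, hm⟩⁻¹ : M) • x0, σ a0, ?_⟩
    rw [hB]
    refine ⟨?_, n1, fun s => (hst s).sml, n2, n3⟩
    show σ (σ a0) = σ a0
    conv_lhs => rw [hσm']
    exact hσ2 a0 m hm
  have hW : S.W = Prod.fst '' B := by
    ext w
    constructor
    · intro hw
      obtain ⟨x, a, h⟩ := hWB w hw
      exact ⟨_, h, rfl⟩
    · rintro ⟨⟨w', x, a⟩, hp, rfl⟩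
      rw [hB] at hp
      exact ⟨x, _, hp.2.2.2.1, hp.2.2.2.2⟩
  refine ⟨?_, ?_⟩
  · rw [hW]
    exact hBm.image_of_measurable_injOn measurable_fst hinj
  · have : StandardBorelSpace B := hBm.standardBorel
    have hem : MeasurableEmbedding (fun p : B => p.1.1) := by
      refine Measurable.measurableEmbedding (measurable_fst.comp measurable_subtype_coe) ?_
      intro p p' hpp
      exact Subtype.ext (hinj p.2 p'.2 hpp)
    obtain ⟨f, hfm, hf⟩ := hem.exists_measurable_extend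
      (g := fun p : B => p.1.2.1) (hx.comp measurable_subtype_coe) (fun _ => inferInstance)
    refine ⟨f, hfm, fun w hw => ?_⟩
    obtain ⟨x, a, h⟩ := hWB w hw
    have h12 : f w = x := congrFun hf ⟨(w, x, a), h⟩
    rw [h12]
    rw [hB] at h
    exact ⟨_, h.2.2.2.1, h.2.2.2.2⟩

end Pool.Agent.H36.LP
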